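import Pool.Agent.Work.MP_5296b6_lc.Top2

/-!
# Max-Scatter-TSP is solvable in polynomial time under every polyhedral norm
-/

set_option autoImplicit false

namespace Pool.Agent.Results.MP_5296b6_lc.PolynomialTime

open Pool.Agent.MaxScatter Pool.Agent.RRAM

/-- Max-Scatter-TSP is solvable in polynomial time under every fixed polyhedral norm in every
fixed dimension.

* On Turing machines: both versions are polynomial whenever the unit ball has rational vertices.
  For an arbitrary real polyhedral unit ball, the decision version is polynomial if (and clearly
  only if) distances can be compared with rational numbers in polynomial time, and an optimal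
  round-trip is computable in polynomial time if and only if the longer of two distances is.
* On the real RAM: one program decides the problem in `n ^ k` steps for all real inputs and all
  real polyhedral unit balls with a given number of facets, the facet functionals being given. -/
theorem result :
    (∀ (s : ℕ) (B : Set (Fin s → ℝ)), 1 ≤ s → IsPolyhedralBall B →
      (IsRational B → DecisionPoly B ∧ OptimumPoly B) ∧
      (DecisionPoly B ↔ NumberComparable B) ∧
      (OptimumPoly B ↔ LongerFindable B)) ∧
    (∀ s f : ℕ, 1 ≤ s → ∃ (Pr : List Instr) (k : ℕ), ∀ (B : Set (Fin s → ℝ))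
      (a : Fin f → Fin s → ℝ), IsPolyhedralBall B → B = {x | ∀ i, |∑ j, a i j * x j| ≤ 1} →
        ∀ (P : List (Fin s → ℝ)) (L : ℝ) (b : Bool), 2 ≤ P.length →
          (b = true ↔ ∃ R : List (Fin s → ℝ), R.Perm P ∧ L ≤ scatter B R) →
            Answers Pr (ramInput L a P) (P.length ^ k) b) :=
  ⟨fun _ _ h1 hB => ⟨fun h => Pool.Agent.Scatter.polynomial_of_rational
    Pool.Agent.Scatter.claimDec' h1 hB h, Pool.Agent.Scatter.decision_iff h1 hB,
    Pool.Agent.Scatter.optimum_iff h1 hB⟩, Pool.Agent.Scatter.ram⟩

end Pool.Agent.Results.MP_5296b6_lc.PolynomialTime
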